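import Mathlib
import Pool.Agent.H144.GenExt2

/-!
# Abelian codes whose lengths have a large `l`-part are asymptotically bad

Let `F` be a field with `q` elements and characteristic `p` (for the problem `q = p = 2`). Abelian codes over `F`
are asymptotically bad if all prime factors of their lengths belong to a fixed finite set (Berman and Castagnoli for
cyclic codes; in the library, `SmoothAbelian`, for the groups which are abelian modulo a normal `p`-subgroup). Here
one prime `l` is enough: the other prime factors of the length are arbitrary, provided that the exponent of `l` in
the orders of `q` modulo these primes is small compared to its exponent in the length.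

Let `l ≠ p` be a prime and `δ, ε > 0`. There is a number `K` with the following property. Let `G` be a finite group
with a normal `p`-subgroup `H` such that `G / H` is abelian, and let `s` be such that `l ^ (s + 1)` does not divide
the order of `q` modulo `r` for any prime divisor `r` of `|G|` other than `l` and `p`. If `l ^ (K (s + 1))` divides
`|G|`, then every code `C ⊆ F ^ G` which is invariant under the translations of `G` and has minimum distance at
least `δ |G|` has dimension at most `ε |G|`.

Proof. Passing to the words constant on the cosets of `H` one may assume that `G` is abelian. If the `l`-rank of `G`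
is large then the density Hales-Jewett theorem applies (library). Otherwise a dense set of characters of `G` contains
a character `χ` whose `l`-part has large order, and the powers `q ^ i` which are `1` modulo the part of the order
prime to `l` fill the subgroup `1 + l ^ (a + s) ℤ` modulo each power of `l`; so the Frobenius orbit of `χ` contains a
coset of a large cyclic group of characters, and the sum of this coset is a word which is supported on a subgroup of
large index.
-/

set_option autoImplicit false

namespace Pool.Agent.Results.MP_0430e4_lc.GroupCodesLargePart

/-- **Group codes with a large `l`-part.** -/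
theorem result (F : Type) [Field F] [Fintype F] [DecidableEq F] (p : ℕ) [Fact p.Prime] [CharP F p]
    (l : ℕ) (hl : l.Prime) (hlp : l ≠ p) (δ ε : ℝ) (hδ : 0 < δ) (hε : 0 < ε) :
    ∃ K : ℕ, ∀ (s : ℕ) (G : Type) [Group G] [Fintype G] (H : Subgroup G) [H.Normal],
      IsPGroup p H → (∀ a b : G, a * b * a⁻¹ * b⁻¹ ∈ H) →
      l ^ (K * (s + 1)) ∣ Nat.card G →
      (∀ r : ℕ, r.Prime → r ∣ Nat.card G → r ≠ l → r ≠ p →
        ¬ l ^ (s + 1) ∣ orderOf ((Fintype.card F : ℕ) : ZMod r)) →
      ∀ C : Submodule F (G → F), (∀ g : G, ∀ f ∈ C, (fun x => f (g * x)) ∈ C) →
      (∀ f ∈ C, f ≠ 0 → δ * Nat.card G ≤ hammingNorm f) →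
      (Module.finrank F C : ℝ) ≤ ε * Nat.card G := by
  have hlF : (l : F) ≠ 0 := by
    rw [Ne, CharP.cast_eq_zero_iff F p]
    intro h
    exact hlp ((Nat.prime_dvd_prime_iff_eq Fact.out hl).1 h).symm
  obtain ⟨K, hK⟩ := H144.Ext.lpartG (F := F) l hl hlF δ ε hδ hε
  exact ⟨K, fun s G _ _ H _ hH hcomm hdvd hord C hC hd => hK s p G H hH hcomm hdvd hord C hC hd⟩

end Pool.Agent.Results.MP_0430e4_lc.GroupCodesLargePart
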