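import Pool.Agent.H712.NI.GTheta

/-!
# Binary codes and random errors of density `δ`: the exponent `θ(δ)` bounds more than the size

`Curve` is the curve `δ ↦ θ(δ)` of the library result `ThetaCurve` (over every `0 < δ < 1/2` there is a
point `(δ, θ)`, and `R(δ) ≤ θ < B(δ)`, `B` the second linear programming bound). Let `C` be any code of
length `n` with minimum distance at least `δ n`, of any rate, and let `Z` be the noise of the binary
symmetric channel with crossover probability `δ` (so that `Z` has about `δ n` ones, twice the number of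
errors which `C` corrects in the worst case). For `n ≥ n0`, `n0` independent of `C`:

1. (functional form) for all functions `F` with Lipschitz constant `L` in the Hamming metric
   `∑_{x ∈ C} 2^(-E F(x + Z)) ≤ 2^(-(1 - θ - ε) n) ∑_z 2^(-F z)`; for `F = 0` this is `|C| ≤ 2^((θ + ε) n)`;
2. (entropy form) `H(X) + (n - H(X + Z)) ≤ (θ + ε) n` for all random words `X` of `C`; equivalently, the
   equivocation satisfies `H(X | X + Z) ≤ (θ(δ) - (1 - H(δ)) + ε) n`: at most the gap between `θ` and the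
   exponent of Gilbert and Varshamov, for codes of every rate (as `H(X | X + Z) ≥ H(X) - (1 - H(δ)) n`,
   this contains `R(δ) ≤ θ(δ)` and is stronger);
3. (sets) if the noisy words of `C` are in a set `T` with probability at least `p`, then
   `|C| ≤ 2^(-(1 - θ - ε) n) |T|`;
4. (lists) for all but an exponentially small part of the codewords `x`, there are, with probability at
   least `1 - p`, fewer than `2^((θ - (1 - H(δ)) + ε) n)` codewords at distance at most `δ n` from `x + Z`.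
-/

namespace Pool.Agent.Results.MP_0430e4_lc.NoiseEntropy

open Finset

/-- `η(x) = -x log₂ x`, with `η(0) = 0`. -/
noncomputable def η (x : ℝ) : ℝ := -x * Real.logb 2 x

/-- The binary entropy function. -/
noncomputable def H (x : ℝ) : ℝ := η x + η (1 - x)

/-- `h(x) = H(1/2 - 1/2 √(1 - x))`. -/
noncomputable def h (x : ℝ) : ℝ := H (1 / 2 - 1 / 2 * √(1 - x))

/-- `α_k(e) = ∑_j sech²((2 j + k) e) / ∑_j sech((2 j + k) e)`, sums over all integers `j`. -/
noncomputable def α (k : ℤ) (e : ℝ) : ℝ :=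
  (∑' j : ℤ, 1 / Real.cosh ((2 * j + k) * e) ^ 2) / ∑' j : ℤ, 1 / Real.cosh ((2 * j + k) * e)

/-- `S(e) = h(sech² e) - h(sech² 2e) + h(sech² 3e) - …`. -/
noncomputable def S (e : ℝ) : ℝ := ∑' n : ℕ, (-1) ^ n * h (1 / Real.cosh ((n + 1) * e) ^ 2)

/-- The curve of the points `(δ, θ(δ))`. -/
def Curve : Set (ℝ × ℝ) :=
  {p | (∃ e : ℝ, 0 < e ∧ p = ((1 - α 1 e) / 2, S e)) ∨
    (∃ e : ℝ, 0 < e ∧ p = ((1 - α 0 e) / 2, 1 - S e)) ∨ p = (1 / 2 - 1 / Real.pi, 1 / 2)}

/-- The minimum distance of `C` is at least `d`. -/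
def Dist {n : ℕ} (C : Finset (Fin n → ZMod 2)) (d : ℝ) : Prop :=
  ∀ x ∈ C, ∀ y ∈ C, x ≠ y → d ≤ hammingDist x y

/-- The probability that `x` becomes `z` when its letters are flipped independently with
probability `δ`. -/
noncomputable def W {n : ℕ} (δ : ℝ) (x z : Fin n → ZMod 2) : ℝ :=
  ∏ i, if z i = x i then 1 - δ else δ

/-- The mean `E F(x + Z)` of `F` at the noisy version of `x`. -/
noncomputable def E {n : ℕ} (δ : ℝ) (F : (Fin n → ZMod 2) → ℝ) (x : Fin n → ZMod 2) : ℝ :=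
  ∑ z, W δ x z * F z

/-- The law of the noisy version of a random word of law `P`. -/
noncomputable def noisy {n : ℕ} (δ : ℝ) (P : (Fin n → ZMod 2) → ℝ) (z : Fin n → ZMod 2) : ℝ :=
  ∑ x, P x * W δ x z

/-- The Shannon entropy, in bits. -/
noncomputable def Ent {A : Type} [Fintype A] (P : A → ℝ) : ℝ := ∑ a, η (P a)

/-- The conditional entropy `H(X | X + Z)`, in bits, for `X` of law `P`. -/
noncomputable def equivocation {n : ℕ} (δ : ℝ) (P : (Fin n → ZMod 2) → ℝ) : ℝ :=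
  ∑ x, ∑ z, P x * W δ x z * Real.logb 2 (noisy δ P z / (P x * W δ x z))

/-- The number of the words of `C` at distance at most `δ n` from `z`. -/
noncomputable def near {n : ℕ} (δ : ℝ) (C : Finset (Fin n → ZMod 2)) (z : Fin n → ZMod 2) : ℕ :=
  (C.filter fun y => (hammingDist y z : ℝ) ≤ δ * n).card

/-- **Codes of relative minimum distance `δ` and random errors of density `δ`.** -/
theorem result (δ θ : ℝ) (h0 : 0 < δ) (h1 : δ < 1 / 2) (hθ : (δ, θ) ∈ Curve) :
    -- (1) functional form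
    (∀ L ε : ℝ, 0 < ε → ∃ n0 : ℕ, ∀ n ≥ n0, ∀ C : Finset (Fin n → ZMod 2), Dist C (δ * n) →
      ∀ F : (Fin n → ZMod 2) → ℝ, (∀ y z, |F y - F z| ≤ L * hammingDist y z) →
      ∑ x ∈ C, (2 : ℝ) ^ (-E δ F x) ≤ (2 : ℝ) ^ (-(1 - θ - ε) * n) * ∑ z, (2 : ℝ) ^ (-F z)) ∧
    -- (2) entropy and equivocation
    (∀ ε : ℝ, 0 < ε → ∃ n0 : ℕ, ∀ n ≥ n0, ∀ C : Finset (Fin n → ZMod 2), Dist C (δ * n) →
      ∀ P : (Fin n → ZMod 2) → ℝ, (∀ x, 0 ≤ P x) → ∑ x, P x = 1 → (∀ x, x ∉ C → P x = 0) →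
      Ent P + (n - Ent (noisy δ P)) ≤ (θ + ε) * n ∧
      equivocation δ P ≤ (θ - (1 - H δ) + ε) * n) ∧
    -- (3) sets
    (∀ p ε : ℝ, 0 < p → 0 < ε → ∃ n0 : ℕ, ∀ n ≥ n0, ∀ C : Finset (Fin n → ZMod 2),
      Dist C (δ * n) → ∀ T : Finset (Fin n → ZMod 2), (∀ x ∈ C, p ≤ ∑ z ∈ T, W δ x z) →
      (C.card : ℝ) ≤ (2 : ℝ) ^ (-(1 - θ - ε) * n) * T.card) ∧
    -- (4) lists
    (∀ p ε : ℝ, 0 < p → 0 < ε → ∃ n0 : ℕ, ∀ n ≥ n0, ∀ C : Finset (Fin n → ZMod 2),
      Dist C (δ * n) →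
      ((C.filter fun x => p ≤ ∑ z ∈ univ.filter (fun z =>
        (2 : ℝ) ^ ((θ - (1 - H δ) + ε) * n) ≤ near δ C z), W δ x z).card : ℝ) ≤
        (2 : ℝ) ^ (-(ε / 2) * n) * C.card) := by
  refine ⟨fun L ε hε => ?_, fun ε hε => ?_, fun p ε hp hε => ?_, fun p ε hp hε => ?_⟩
  · obtain ⟨n0, hn0⟩ := Pool.Agent.H712.NI.GT.functional h0 h1 hθ L hε
    refine ⟨n0, fun n hn C hC F hF => (hn0 n hn C hC F hF).trans (le_of_eq ?_)⟩
    have : (θ - 1 + ε) * n = -(1 - θ - ε) * n := by ring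
    rw [this]
  · obtain ⟨n0, hn0⟩ := Pool.Agent.H712.NI.GT.entropy h0 h1 hθ hε
    refine ⟨n0, fun n hn C hC P hP hP1 hPC => ?_⟩
    have key := hn0 n hn C hC P hP hP1 hPC
    refine ⟨key, ?_⟩
    have h2 := Pool.Agent.H712.NI.GT.equiv_eq h0 (by linarith : δ < 1) P hP hP1
    have h3 : equivocation δ P = Ent P + n * H δ - Ent (noisy δ P) := h2
    have key' : Ent P + (n - Ent (noisy δ P)) ≤ (θ + ε) * n := key
    rw [h3]
    linarith
  · obtain ⟨n0, hn0⟩ := Pool.Agent.H712.NI.GT.hitting h0 h1 hθ hp hε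
    refine ⟨n0, fun n hn C hC T hT => (hn0 n hn C hC T hT).trans (le_of_eq ?_)⟩
    have : (θ - 1 + ε) * n = -(1 - θ - ε) * n := by ring
    rw [this]
  · obtain ⟨n0, hn0⟩ := Pool.Agent.H712.NI.GT.lists h0 h1 hθ hp hε
    exact ⟨n0, fun n hn C hC => hn0 n hn C hC⟩

end Pool.Agent.Results.MP_0430e4_lc.NoiseEntropy
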