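import Pool.Agent.H712.NI.GApp

/-!
# Codes with biased parities of small weight: explicit bounds on the rate below `θ(δ)`

`Curve` is the curve `δ ↦ θ(δ)` of the library result `ThetaCurve` (over every `0 < δ < 1/2` there is a
point `(δ, θ)`, and `R(δ) ≤ θ < B(δ)`, with `B` the second linear programming bound). Let `C` be a code
of length `n` with minimum distance at least `δ n`, linear or not. For `n ≥ n0`, `n0` independent of `C`:

1. for all linearly independent words `y_1, …, y_r` (any number `r` of them, of any weights `|y_j|`), with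
   `bias C y = |E (-1)^⟨y, x⟩|` over the words `x` of `C` (a normalised Fourier coefficient of `C`),
   `log₂ |C| ≤ (θ + ε) n - ∑_j gain ((1 - 2 δ)^|y_j| · bias C y_j)`, where `gain t = 1 - H ((1 - t)/2)`
   is positive for `t > 0`;
2. if each of the coordinates in a set `I` can be guessed from at most `r` others with advantage `γ`
   (by any functions: `r` and `γ` may depend on `n`, the sets of `r` coordinates may overlap), then
   `log₂ |C| ≤ (θ + ε) n - |I|/(r + 1) · gain ((1 - 2 δ)^(r + 1) · 2 γ / 2^r)`;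
   `γ = 1/2` is the case of all, also nonlinear, locally recoverable codes;
3. if `C` is linear and has a basis of parity checks of weight at most `w` (LDPC codes), then
   `(1 - θ - ε) n ≤ (n - dim C) · H ((1 - (1 - 2 δ)^w)/2)`, that is,
   `rate ≤ 1 - (1 - θ - ε) / H ((1 - (1 - 2 δ)^w)/2)`, less than `θ(δ)` for all `δ` and `w`.
-/

namespace Pool.Agent.Results.MP_0430e4_lc.SparseFourier

open Finset

/-- `η(x) = -x log₂ x`, with `η(0) = 0`. -/
noncomputable def η (x : ℝ) : ℝ := -x * Real.logb 2 x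

/-- The binary entropy function. -/
noncomputable def H (x : ℝ) : ℝ := η x + η (1 - x)

/-- `h(x) = H(1/2 - 1/2 √(1 - x))`. -/
noncomputable def h (x : ℝ) : ℝ := H (1 / 2 - 1 / 2 * √(1 - x))

/-- `α_k(e) = ∑_j sech²((2 j + k) e) / ∑_j sech((2 j + k) e)`, sums over all integers `j`. -/
noncomputable def α (k : ℤ) (e : ℝ) : ℝ :=
  (∑' j : ℤ, 1 / Real.cosh ((2 * j + k) * e) ^ 2) / ∑' j : ℤ, 1 / Real.cosh ((2 * j + k) * e)

/-- `S(e) = h(sech² e) - h(sech² 2e) + h(sech² 3e) - …`. -/
noncomputable def S (e : ℝ) : ℝ := ∑' n : ℕ, (-1) ^ n * h (1 / Real.cosh ((n + 1) * e) ^ 2)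

/-- The curve of the points `(δ, θ(δ))`. -/
def Curve : Set (ℝ × ℝ) :=
  {p | (∃ e : ℝ, 0 < e ∧ p = ((1 - α 1 e) / 2, S e)) ∨
    (∃ e : ℝ, 0 < e ∧ p = ((1 - α 0 e) / 2, 1 - S e)) ∨ p = (1 / 2 - 1 / Real.pi, 1 / 2)}

/-- The minimum distance of `C` is at least `d`. -/
def Dist {n : ℕ} (C : Finset (Fin n → ZMod 2)) (d : ℝ) : Prop :=
  ∀ x ∈ C, ∀ y ∈ C, x ≠ y → d ≤ hammingDist x y

/-- The information, in bits, of one bit of mean `± t` (values `1` and `-1`). -/
noncomputable def gain (t : ℝ) : ℝ := 1 - H ((1 - t) / 2)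

/-- The absolute value of the mean of `(-1)^⟨y, x⟩` over the words `x` of `C`. -/
noncomputable def bias {n : ℕ} (C : Finset (Fin n → ZMod 2)) (y : Fin n → ZMod 2) : ℝ :=
  |∑ x ∈ C, if ∑ i, y i * x i = 0 then (1 : ℝ) else -1| / C.card

/-- The coordinate `i` can be guessed from at most `r` others with advantage `γ` over a uniformly random
word of `C`. -/
def Predictable {n : ℕ} (C : Finset (Fin n → ZMod 2)) (r : ℕ) (γ : ℝ) (i : Fin n) : Prop :=
  ∃ R : Finset (Fin n), i ∉ R ∧ R.card ≤ r ∧ ∃ f : (R → ZMod 2) → ZMod 2,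
    (1 / 2 + γ) * C.card ≤ (C.filter fun x => f (fun k => x k) = x i).card

/-- **Codes with biased parities of small weight.** -/
theorem result (δ θ : ℝ) (h0 : 0 < δ) (h1 : δ < 1 / 2) (hθ : (δ, θ) ∈ Curve) (ε : ℝ)
    (hε : 0 < ε) : ∃ n0 : ℕ, ∀ n ≥ n0,
    -- (1) linearly independent words
    (∀ C : Finset (Fin n → ZMod 2), C.Nonempty → Dist C (δ * n) →
      ∀ (r : ℕ) (y : Fin r → Fin n → ZMod 2), LinearIndependent (ZMod 2) y →
      Real.logb 2 C.card ≤
        (θ + ε) * n - ∑ j, gain ((1 - 2 * δ) ^ hammingNorm (y j) * bias C (y j))) ∧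
    -- (2) predictable coordinates
    (∀ C : Finset (Fin n → ZMod 2), C.Nonempty → Dist C (δ * n) →
      ∀ (r : ℕ) (γ : ℝ), 0 < γ → ∀ I : Finset (Fin n), (∀ i ∈ I, Predictable C r γ i) →
      Real.logb 2 C.card ≤
        (θ + ε) * n - I.card / (r + 1) * gain ((1 - 2 * δ) ^ (r + 1) * (2 * γ / 2 ^ r))) ∧
    -- (3) low-density parity-check codes
    (∀ (w : ℕ) (Y : Set (Fin n → ZMod 2)), (∀ y ∈ Y, hammingNorm y ≤ w) →
      ∀ C : Submodule (ZMod 2) (Fin n → ZMod 2), (∀ x, x ∈ C ↔ ∀ y ∈ Y, ∑ i, y i * x i = 0) →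
      (∀ x ∈ C, x ≠ 0 → δ * n ≤ hammingNorm x) →
      (1 - θ - ε) * n ≤ (n - Module.finrank (ZMod 2) C) * H ((1 - (1 - 2 * δ) ^ w) / 2)) := by
  classical
  obtain ⟨n1, hn1⟩ := Pool.Agent.H712.NI.GT.fourier h0 h1 hθ hε
  obtain ⟨n2, hn2⟩ := Pool.Agent.H712.NI.GT.predict_explicit h0 h1 hθ hε
  obtain ⟨n3, hn3⟩ := Pool.Agent.H712.NI.GT.ldpc_explicit h0 h1 hθ hε
  have hg : ∀ t, Pool.Agent.H712.NI.gain t = gain t := fun t =>
    Pool.Agent.H712.NI.GT.gain_H t
  refine ⟨max n1 (max n2 n3), fun n hn => ⟨fun C hC hD r y hy => ?_, fun C hC hD r γ hγ I hI => ?_,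
    fun w Y hY C hCY hD => ?_⟩⟩
  · have key := hn1 n ((le_max_left _ _).trans hn) C hC hD r y hy
    refine key.trans (le_of_eq ?_)
    simp only [hg]
    rfl
  · -- transport to Boolean words
    have hn2' := hn2 n ((le_max_left _ _).trans ((le_max_right _ _).trans hn))
    set bz : ZMod 2 ≃ Bool := Pool.Agent.H712.NI.zb with hbz
    set e : (Fin n → ZMod 2) ≃ (Fin n → Bool) := Equiv.piCongrRight fun _ => bz with he
    set C' : Finset (Fin n → Bool) := C.map e.toEmbedding with hC'
    have hcard : C'.card = C.card := Finset.card_map _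
    have hdist : ∀ x y : Fin n → ZMod 2, hammingDist (e x) (e y) = hammingDist x y := fun x y =>
      hammingDist_comp (fun _ => bz) (fun _ => bz.injective)
    have key := hn2' C' (by rw [hC', Finset.map_nonempty]; exact hC) (by
      intro x hx y hy hxy
      rw [hC', Finset.mem_map] at hx hy
      obtain ⟨x', hx', rfl⟩ := hx
      obtain ⟨y', hy', rfl⟩ := hy
      have h3 : hammingDist (e.toEmbedding x') (e.toEmbedding y') = hammingDist x' y' :=
        hdist x' y'
      rw [h3]
      exact hD x' hx' y' hy' (fun h => hxy (by rw [h]))) r γ hγ I (by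
      intro i hi
      obtain ⟨R, hiR, hRr, f, hf⟩ := hI i hi
      refine ⟨R, hiR, hRr, fun g => bz (f (fun k => bz.symm (g k))), ?_⟩
      rw [hcard]
      refine hf.trans (le_of_eq ?_)
      have : (C'.filter fun x => bz (f (fun k => bz.symm (x k))) = x i) =
          (C.filter fun x => f (fun k => x k) = x i).map e.toEmbedding := by
        rw [hC', Finset.filter_map]
        congr 1
        refine Finset.filter_congr fun x _ => ?_
        simp [e, Equiv.piCongrRight]
      rw [this, Finset.card_map])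
    rw [hcard] at key
    refine key.trans (le_of_eq ?_)
    rw [hg]
  · exact hn3 n ((le_max_right _ _).trans ((le_max_right _ _).trans hn)) w Y hY C hCY hD

end Pool.Agent.Results.MP_0430e4_lc.SparseFourier
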