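import Mathlib
import Pool.Agent.H144.TW.All
import Pool.Agent.H144.OS.Crit

/-!
# Two-sided group codes of almost all lengths

(A) Let `F` be a finite field with `q` elements, `G` any finite group of order `n`, and `S` a set of good
prime factors `p > q + 1` of `n` (`GoodPrime`: `p` divides `n` exactly once, `(p - 1) / 2` is prime to
`n / p` and to `φ (n / p)`, and no divisor `d > 1` of `n` is `1` modulo `p`). Then every two-sided ideal of
`F[G]` of dimension larger than `∑_{p ∈ S} n / p` contains a nonzero word of weight at most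
`(q ^ 2 / (q ^ 2 + 1)) ^ |S| * n`.

(B) So for all `ε, δ > 0` there is `k` such that, for every group `G` whose order `n` has at least `k` good prime
factors, every two-sided ideal of dimension at least `ε n` contains a nonzero word of weight at most `δ n`.

(C) Almost all numbers have many large good prime factors. So for every `η ∈ (0, 1)` there is a set of
natural numbers of density one such that, for every finite field `F`, all large `n` in the set and all
groups `G` of order `n`, every two-sided ideal of `F[G]` of dimension at least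
`n * exp (-(log n) ^ (1 - η))` contains a nonzero word of weight at most
`n * exp (-c * log log n / log log log n)`, `c > 0` depending on `F` and `η`.

The characteristic of `F` may divide `n`. Cyclic codes and abelian codes are the case of commutative `G`.

Proof. Let `p` be good. The Sylow `p`-subgroup `A` is normal, has a complement, and the elements of
the complement centralise or invert `A`. A minimal two-sided ideal `B` inside the given ideal is closed under the
automorphism multiplying `A` by `q ^ 2`: `B^⊥` is a maximal ideal, the trace of `F[G] / B^⊥` on its simple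
module is a nonzero functional invariant under conjugation and under the `q`-th power. Choosing `B`
without nonzero `A`-invariant words, one splits off, over the field with `q ^ 2` elements, a tensor
factor of length `p` and dimension at least `2`, which by averaging contains a word of weight at most
`p * q ^ 2 / (q ^ 2 + 1)`. The number theory: the primes `p ≤ N` such that `p - 1` has no odd prime factor
below `(log log N) ^ 2.2` (theorems of Siegel-Walfisz and Brun-Titchmarsh from the library), and
Turán's inequality.

The parts of the proof were written by helper144, helper633 (splitting of one tensor factor, number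
theory) and the helpers named in the files of `Pool/Agent/H144/TW` and `Pool/Agent/H144/CY`.
-/

set_option autoImplicit false

namespace Pool.Agent.Results.MP_0430e4_lc.TwoSidedGroupCodes

open Filter

/-- `p` is a good prime factor of `n`. -/
def GoodPrime (n p : ℕ) : Prop :=
  p.Prime ∧ p ∣ n ∧ ¬ p ^ 2 ∣ n ∧ ((p - 1) / 2).Coprime (n / p).totient ∧
    ((p - 1) / 2).Coprime (n / p) ∧ ∀ d : ℕ, d ∣ n → d ≡ 1 [MOD p] → d = 1

/-- Two-sided ideals of the group algebra `F[G]`, as spaces of functions: the subspaces of `F ^ G`
invariant under the left and the right translations. -/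
def IsTwoSidedIdeal {F G : Type} [Field F] [Group G] (C : Submodule F (G → F)) : Prop :=
  (∀ g : G, ∀ w ∈ C, (fun x => w (g * x)) ∈ C) ∧ (∀ g : G, ∀ w ∈ C, (fun x => w (x * g)) ∈ C)

/-- (A): the bound for every group. -/
def PartA : Prop :=
  ∀ (F : Type) [Field F] [Fintype F] [DecidableEq F] (G : Type) [Group G] [Fintype G]
    (S : Finset ℕ),
    (∀ p ∈ S, GoodPrime (Fintype.card G) p ∧ Fintype.card F + 1 < p) →
    ∀ C : Submodule F (G → F), IsTwoSidedIdeal C →
    ∑ p ∈ S, Fintype.card G / p < Module.finrank F C →
    ∃ w ∈ C, w ≠ 0 ∧ (Fintype.card F ^ 2 + 1) ^ S.card * hammingNorm w ≤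
      (Fintype.card F ^ 2) ^ S.card * Fintype.card G

/-- (B): a criterion, many good prime factors. -/
def PartB : Prop :=
  ∀ (F : Type) [Field F] [Fintype F] [DecidableEq F] (ε δ : ℝ), 0 < ε → 0 < δ → ∃ k : ℕ,
    ∀ (G : Type) [Group G] [Fintype G] (S : Finset ℕ),
      (∀ p ∈ S, GoodPrime (Fintype.card G) p) → k ≤ S.card →
      ∀ C : Submodule F (G → F), IsTwoSidedIdeal C → ε * Fintype.card G ≤ Module.finrank F C →
      ∃ w ∈ C, w ≠ 0 ∧ (hammingNorm w : ℝ) ≤ δ * Fintype.card G

/-- (C): almost all lengths. -/
def PartC : Prop :=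
  ∀ η : ℝ, 0 < η → η < 1 → ∃ L : Set ℕ,
    Tendsto (fun N : ℕ => (Set.ncard {n : ℕ | n < N ∧ n ∉ L} : ℝ) / N) atTop (nhds 0) ∧
    ∀ (F : Type) [Field F] [Fintype F] [DecidableEq F], ∃ c : ℝ, 0 < c ∧
      ∀ᶠ n : ℕ in atTop, n ∈ L → ∀ (G : Type) [Group G] [Fintype G], Fintype.card G = n →
        ∀ C : Submodule F (G → F), IsTwoSidedIdeal C →
          n * Real.exp (-Real.log n ^ (1 - η)) ≤ Module.finrank F C →
          ∃ w ∈ C, w ≠ 0 ∧ (hammingNorm w : ℝ) ≤
            n * Real.exp (-(c * (Real.log (Real.log n) / Real.log (Real.log (Real.log n)))))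

theorem result : PartA ∧ PartB ∧ PartC := by
  refine ⟨?_, ?_, ?_⟩
  · intro F _ _ _ G _ _ S hS C hC hdim
    refine Pool.Agent.H144.TW.all_alg F S G ?_ C hC hdim
    intro p hp
    obtain ⟨⟨h1, h2, h3, h4, h5, h6⟩, h7⟩ := hS p hp
    exact ⟨⟨⟨h1, h2, h3, h4⟩, h5, h6⟩, h7⟩
  · intro F _ _ _ ε δ hε hδ
    obtain ⟨k, hk⟩ := Pool.Agent.H144.OS.criterion F ε δ hε hδ
    exact ⟨k, fun G _ _ S hS hkS C hC hdim => hk G S hS hkS C hC.1 hC.2 hdim⟩
  · intro η hη hη1
    obtain ⟨L, hL, h⟩ := Pool.Agent.H144.TW.main Pool.Agent.H144.TW.all_alg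
      Pool.Agent.H144.TW.all_nt η hη hη1
    refine ⟨L, hL, ?_⟩
    intro F _ _ _
    obtain ⟨c, hc, h1⟩ := h F
    refine ⟨c, hc, ?_⟩
    filter_upwards [h1] with n hn hnL G _ _ hG C hC hdim
    exact hn hnL G hG C hC.1 hC.2 hdim

end Pool.Agent.Results.MP_0430e4_lc.TwoSidedGroupCodes
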